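import Pool.Agent.X160.Rcd

/-!
# MP_83f734_co: the relaxation complexity of the 5-simplex over real quadratic fields

For every real quadratic field `F` the relaxation complexity of `Δ₅ = {0, e₁, …, e₅}` over `F` is
exactly `5`.

* Upper bound: for every irrational `s ∈ (0, 1/2)` five explicit inequalities, whose coefficients
  are of the form `p + q s` with integers `p, q`, have exactly the six points of `Δ₅` as integral
  solutions.  (Geometrically: a 4-simplex over a lattice-free triangular bipyramid in `ℝ³` with
  exactly one lattice point in every facet.)  This works over every subfield of `ℝ` other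
  than `ℚ`.
* Lower bound: four inequalities over a quadratic field are never enough.
-/

namespace Pool.Agent.Results.MP_83f734_co.AllQuadraticFields

/-- The set `X ⊆ ℤ^d` is the set of integer points of a polyhedron `{y ∈ ℝ^d : A y ≤ b}` given by
`k` inequalities whose coefficients and right hand sides all lie in the field `F ⊆ ℝ`. -/
def HasRelaxation (F : Subfield ℝ) {d : ℕ} (k : ℕ) (X : Set (Fin d → ℤ)) : Prop :=
  ∃ (A : Fin k → Fin d → F) (b : Fin k → F),
    ∀ x : Fin d → ℤ, (∀ i, ∑ j, (A i j : ℝ) * (x j : ℝ) ≤ (b i : ℝ)) ↔ x ∈ X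

/-- `rc_F(X)`: the least number of inequalities of an `F`-relaxation of `X` (for full-dimensional
`X`, such as `Δ_d`, this is the least number of facets of an `F`-relaxation). -/
noncomputable def rc (F : Subfield ℝ) {d : ℕ} (X : Set (Fin d → ℤ)) : ℕ :=
  sInf {k | HasRelaxation F k X}

/-- `Δ_d = {0, e_1, …, e_d}`, the zero vector and the standard unit vectors of `ℤ^d`. -/
def discreteSimplex (d : ℕ) : Set (Fin d → ℤ) :=
  {x | x = 0 ∨ ∃ i, x = Pi.single i 1}

/-- Q1 holds: `rc_F(Δ₅) = 5` for every real quadratic field `F`.  Moreover `Δ₅` has an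
`F`-relaxation with five inequalities over every subfield `F ≠ ℚ` of `ℝ`. -/
theorem result :
    (∀ F : Subfield ℝ, Module.finrank ℚ F = 2 → rc F (discreteSimplex 5) = 5) ∧
    ∀ F : Subfield ℝ, F ≠ ⊥ → HasRelaxation F 5 (discreteSimplex 5) :=
  ⟨fun _ hF => Pool.Agent.X160.Rcd.rc_eq hF, fun _ hF => Pool.Agent.X160.Rcb.upper hF⟩

end Pool.Agent.Results.MP_83f734_co.AllQuadraticFields
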